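import Pool.Agent.H1.SobAvg.Final

/-!
# The averaging map `(s, [p]) ↦ [p_s^G]` is continuous (indeed 1-Lipschitz)

All definitions are in `Pool.Agent.H1.SobAvg.Defs`:

* `GKModule K V`: the data of a `(𝔤, K)`-module `V`, the elements of the Lie algebra being given as
  one-parameter subgroups of `G`.
* `Globalization M E`: the completion `E = V_p` of `V` for a `G`-continuous norm `p = nrm`, with its
  continuous representation `ρ` of `G`.
* `InNorm w`: the norm `p` belongs to `Norm(V, w)`.
* `casimir M X = -∑ Xᵢ²`, `IsSobolevFamily`: `D_s = (1 + C)^(s/2)`, `C` the Casimir operator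
  (for an orthonormal basis `Xᵢ` of `𝔨` it acts on `V[τ]` by `|λ_τ + ρ|² - |ρ|²`).
* `average D w s`: the norm `p_s^G`.
* `sobDist`: the distance `d`.

The norm `p_s^G` is the largest norm in `Norm(V, w)` dominated by `p_s`, see
`Pool.Agent.H1.SobAvg.dominated_average` and `Pool.Agent.H1.SobAvg.average_dominated`.

Idea of the proof. For a `K`-invariant norm the Casimir operator `C` is accretive, as
`-X² = lim (2 - exp(hX) - exp(-hX))/h²`. So the resolvents `R_t = (1 + t(1 + C))⁻¹` are contractions,
and the fractional powers satisfy `‖(1 + C)^θ R_t^N‖ ≤ 2^N t^(-θ)` (binomial series). For `x` with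
`g x = y` split `y = (1 - R_t^N)^N y + y'` with `y'` smooth; this gives
`p_{s+δ}^G (R_t^N x) ≤ C t^(-δ/2) w(g⁻¹) p_s(g x)`, hence `p_{s+δ}^G (R_t^N x) ≤ C t^(-δ/2) p_s^G(x)`,
and a dyadic decomposition of `(1 + C)^(-ε/2)` gives `p_{s+δ}^G ≲ (p_s^G)_ε` for all `ε > δ`.
-/

namespace Pool.Agent.Results.MP_d9e438_al.LipschitzAveraging

open Pool.Agent.H1.SobAvg
open scoped ENNReal NNReal

/-- Let `G` be a topological group generated by a compact subgroup `K` and by the one-parameter
subgroups of `G` (for example a real reductive group with maximal compact subgroup `K`), `V` a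
`(𝔤, K)`-module, `Xᵢ` one-parameter subgroups of `K` (for example an orthonormal basis of the Lie
algebra of `K`) and `w` a weight on `G`. Let `p, q ∈ Norm(V, w)`. Then the operators
`D_s = (1 + C)^(s/2)` exist and are unique, and `d(p_s^G, q_t^G) ≤ |s - t| + d(p, q)` for all
`s, t ≥ 0`. -/
theorem result {G : Type*} [Group G] [TopologicalSpace G] [IsTopologicalGroup G]
    (K : Subgroup G) (hK : IsCompact (K : Set G))
    (hG : Subgroup.closure ((K : Set G) ∪
      {g | ∃ (X : Multiplicative ℝ →ₜ* G) (t : ℝ), X (Multiplicative.ofAdd t) = g}) = ⊤)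
    {V : Type*} [AddCommGroup V] [Module ℂ V] (M : GKModule K V)
    {m : ℕ} (X : Fin m → (Multiplicative ℝ →ₜ* G)) (hX : ∀ i t, X i t ∈ K)
    (w : G → ℝ) (hw : IsWeight w)
    {E : Type*} [NormedAddCommGroup E] [NormedSpace ℂ E] [CompleteSpace E]
    {F : Type*} [NormedAddCommGroup F] [NormedSpace ℂ F] [CompleteSpace F]
    (p : Globalization M E) (q : Globalization M F) (hp : p.InNorm w) (hq : q.InNorm w) :
    (∃! D : ℝ → V →ₗ[ℂ] V, IsSobolevFamily (casimir M X) D) ∧
    ∀ D : ℝ → V →ₗ[ℂ] V, IsSobolevFamily (casimir M X) D → ∀ s t : ℝ≥0,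
      sobDist D (p.average D w s) (q.average D w t) ≤ edist s t + sobDist D p.nrm q.nrm :=
  ⟨existsUnique_sobolevFamily p hK hX,
    fun _ hD s t => sobDist_average_le p q hK hG hX hw hp hq hD s t⟩

end Pool.Agent.Results.MP_d9e438_al.LipschitzAveraging
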